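import Pool.Agent.Helper29.AR.Props

/-!
# MP_b55b7c_an: approximate stable rank one, packet Lc
-/

open scoped ENNReal NNReal InnerProductSpace ComplexOrder
open Filter Topology

attribute [-instance] CStarMatrix.instAlgebra CStarMatrix.instModule CStarMatrix.instSMul
  CStarMatrix.instMulAction CStarMatrix.instDistribMulAction

noncomputable section
namespace RC
universe u

namespace H87Lc

variable {M : Type u} [CStarAlgebra M] [PartialOrder M] [StarOrderedRing M]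

theorem sq_add_le (x y : M) : sq (x + y) ≤ (2 : ℝ) • sq x + (2 : ℝ) • sq y := by
  have h : 0 ≤ sq (x - y) := star_mul_self_nonneg _
  rw [← sub_nonneg]
  have e : (2 : ℝ) • sq x + (2 : ℝ) • sq y - sq (x + y) = sq (x - y) := by
    unfold sq
    rw [star_add, star_sub, two_smul, two_smul]
    noncomm_ring
  rw [e]
  exact h

theorem sq_mul_le (b w : M) : sq (b * w) ≤ (‖b‖ ^ 2) • sq w := by
  have h : star b * b ≤ (‖b‖ ^ 2) • (1 : M) := by
    have := CStarAlgebra.star_mul_le_algebraMap_norm_sq (a := b)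
    rwa [Algebra.algebraMap_eq_smul_one] at this
  have h2 := star_left_conjugate_le_conjugate h w
  have e1 : star w * (star b * b) * w = sq (b * w) := by
    unfold sq
    rw [star_mul]
    simp only [mul_assoc]
  have e2 : star w * ((‖b‖ ^ 2) • (1 : M)) * w = (‖b‖ ^ 2) • sq w := by
    rw [mul_smul_comm, mul_one, smul_mul_assoc]
  rwa [e1, e2] at h2

theorem sq_nonneg' (x : M) : 0 ≤ sq x := star_mul_self_nonneg _

theorem main {ι : Type} [DecidableEq ι] (x a : M) (b w : ι → M) (s : Finset ι) :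
    ∃ K : ℝ, 0 ≤ K ∧ sq (a * x + ∑ i ∈ s, b i * w i) ≤ K • (sq x + ∑ i ∈ s, sq (w i)) := by
  induction s using Finset.induction_on with
  | empty =>
    refine ⟨‖a‖ ^ 2, by positivity, ?_⟩
    rw [Finset.sum_empty, Finset.sum_empty, add_zero, add_zero]
    exact sq_mul_le a x
  | insert j s hj ih =>
    obtain ⟨K, hK, h⟩ := ih
    refine ⟨2 * ‖b j‖ ^ 2 + 2 * K, by positivity, ?_⟩
    rw [Finset.sum_insert hj, Finset.sum_insert hj]
    have hS : 0 ≤ sq x + ∑ i ∈ s, sq (w i) :=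
      add_nonneg (sq_nonneg' x) (Finset.sum_nonneg (fun i _ => sq_nonneg' (w i)))
    have e : a * x + (b j * w j + ∑ i ∈ s, b i * w i) =
        b j * w j + (a * x + ∑ i ∈ s, b i * w i) := by abel
    rw [e]
    have h1 := sq_add_le (b j * w j) (a * x + ∑ i ∈ s, b i * w i)
    have h2 : (2 : ℝ) • sq (b j * w j) ≤ (2 * ‖b j‖ ^ 2) • sq (w j) := by
      rw [mul_smul]
      exact smul_le_smul_of_nonneg_left (sq_mul_le _ _) (by norm_num)
    have h3 : (2 : ℝ) • sq (a * x + ∑ i ∈ s, b i * w i) ≤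
        (2 * K) • (sq x + ∑ i ∈ s, sq (w i)) := by
      rw [mul_smul]
      exact smul_le_smul_of_nonneg_left h (by norm_num)
    have e2 : sq x + (sq (w j) + ∑ i ∈ s, sq (w i)) =
        sq (w j) + (sq x + ∑ i ∈ s, sq (w i)) := by abel
    rw [e2, add_smul]
    have h4 : 0 ≤ (2 * ‖b j‖ ^ 2) • (sq x + ∑ i ∈ s, sq (w i)) :=
      smul_nonneg (by positivity) hS
    have h5 : 0 ≤ (2 * K) • sq (w j) := smul_nonneg (by positivity) (sq_nonneg' _)
    calc sq (b j * w j + (a * x + ∑ i ∈ s, b i * w i))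
        ≤ (2 : ℝ) • sq (b j * w j) + (2 : ℝ) • sq (a * x + ∑ i ∈ s, b i * w i) := h1
      _ ≤ (2 * ‖b j‖ ^ 2) • sq (w j) + (2 * K) • (sq x + ∑ i ∈ s, sq (w i)) :=
          add_le_add h2 h3
      _ ≤ ((2 * ‖b j‖ ^ 2) • sq (w j) + (2 * ‖b j‖ ^ 2) • (sq x + ∑ i ∈ s, sq (w i))) +
          ((2 * K) • sq (w j) + (2 * K) • (sq x + ∑ i ∈ s, sq (w i))) :=
          add_le_add (le_add_of_nonneg_right h4) (le_add_of_nonneg_left h5)
      _ = _ := by
          rw [smul_add (2 * ‖b j‖ ^ 2) (sq (w j)), smul_add (2 * K) (sq (w j))]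

end H87Lc

open H87Lc in
theorem lcP : LcP.{u} := by
  intro M _ _ _ n x a b w h
  have hW : 0 ≤ ∑ i, sq (w i) := Finset.sum_nonneg (fun i _ => sq_nonneg' (w i))
  refine ⟨hW, ?_⟩
  obtain ⟨K, hK, hle⟩ := main x a b w Finset.univ
  rw [h] at hle
  have e1 : sq (1 : M) = 1 := by simp [sq]
  rw [e1] at hle
  have hS : 0 ≤ sq x + ∑ i, sq (w i) := add_nonneg (sq_nonneg' x) hW
  have h1 : (1 : M) ≤ (K + 1) • (sq x + ∑ i, sq (w i)) := by
    rw [add_smul, one_smul]
    exact hle.trans (le_add_of_nonneg_right hS)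
  have hu : IsUnit ((K + 1) • (sq x + ∑ i, sq (w i))) := CStarAlgebra.isUnit_of_le 1 h1
  obtain ⟨u, hu⟩ := hu
  have h2 : (↑u⁻¹ : M) * ((K + 1) • (sq x + ∑ i, sq (w i))) = 1 := by
    rw [← hu]
    exact u.inv_mul
  refine ⟨(K + 1) • ((↑u⁻¹ : M) * star x), (K + 1) • (↑u⁻¹ : M), ?_⟩
  rw [smul_mul_assoc, smul_mul_assoc, mul_assoc, ← smul_add, ← mul_add, ← mul_smul_comm]
  exact h2

end RC
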